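import Pool.Agent.PB.Final

/-!
# Problem MP_d40431_gt: connected closed manifolds

The promise problem of Q1 for connected closed 4-manifolds has no algorithm, granting published
theorems of topology, which are stated as hypotheses: the Pin⁻ bordism theory (`PinMinus`), and the
properties (`Filler`, `SameB`, `Fills`, one PL homeomorphism) of two fixed pieces `F`, `F'`.

## The construction

* A spine `Y` is a finite connected 2-dimensional cubical complex in the lattice `ℤ⁵` (cells are
  given by their doubled centres) which contains a fixed ring `Q` of four edges. The handle `TT`
  is attached to the ring. The union of the cubes `[q, q + 1]⁵`, `q ∈ Y ∪ TT`, is a 5-dimensional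
  handlebody with handles of index at most two; its boundary `K (Y ∪ TT)`, triangulated as part of
  the Kuhn triangulation, is a connected closed combinatorial 4-manifold. It contains the fixed
  solid torus `Tor = S¹ × D³` (the part of the boundary in the hyperplane `x 4 = 7`), with the core
  `Core = S¹ × D³`; its circle is freely homotopic in the handlebody to the ring.
* `C` lists the facets outside of the core, and `D` the facets of the collar `Tor \ Core`. The
  vertices have even names. A filler `F` is a complex which can be glued to the collar in place of
  the core: `Filler D F`. `SameB D F F'`: `F` and `F'` are homeomorphic by a homeomorphism which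
  is the identity on the boundary.
* A word `w` in the generators of the finitely presented group `H` of Novikov and Boone gives a
  complex in `ℤ⁵`, which contains a disc bounded by the word `w`. The spine `Y(w)` is this complex
  without one square in the disc, and the ring is the boundary of the square. So `Y(w)` has the
  fundamental group `H`, in which the ring represents `w` (up to conjugation), which is trivial or
  of infinite order. The words are enumerated by a computable sequence, and the set of indices
  of the trivial ones is many-one complete (`Pool.Agent.NB`).
* If `w = w'` in `H` then `Y(w) ∪ TT` and `Y(w') ∪ TT` are connected by elementary cubical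
  expansions and collapses in dimension at most 3, away from `Tor`; these change the boundary by
  bistellar flips away from `Tor` (`Pool.Agent.MK`, `MKD`). So the exteriors of the core are PL
  homeomorphic by a homeomorphism which is the identity on the collar, and after gluing the same
  filler one gets PL homeomorphic manifolds.
* If the ring has infinite order, some flat labelling `Λ` of `Y` by a group `Γ` has along the ring
  a value `a` of infinite order (`Essential`). Let `G = ⟨Γ, t | t² = a⟩` (amalgamated product), with
  the character `χ` which is trivial on `Γ` and `-1` at `t`. By Mayer-Vietoris the class `κ` of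
  the K3 surface is not zero in the Pin⁻ bordism group of `(G, χ)` (`PB.exists_amalgam`). `Λ` and
  `t` give a flat labelling of `C ++ F` by `G` (`PB.glue_lab`), with the class `κ`. If `C ++ F` and
  `C ++ F'` were PL homeomorphic then `C ++ F'` would have this class for some flat labelling by
  `G`, but all its classes are zero (`PB.not_pl`).

## The pieces `F` and `F'` (published results, not formalized)

Let `Mb` be the Moebius band, and `F = (Mb × S²) # K3 # r (S² × S²)`,
`F' = (Mb × S²) # (11 + r) (S² × S²)`, triangulated such that the boundary `∂Mb × S²` is the
boundary `S¹ × S²` of the core (product framing of the planar ring).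

* `SameB D F F'`: by Freedman `K3 = 2 E8 # 3 (S² × S²)` and `E8 # (-E8) = 8 (S² × S²)` (simply
  connected closed manifolds), and one copy of `E8` can be moved around the core of the Moebius
  band, which changes it to `-E8`.
* `PLHomeo (C₀ ++ F) (C₀ ++ F')`: the ring of `Y₀` is contractible, so `K (Y₀ ∪ TT)` with `Mb × S²`
  in place of the core is `K (Y₀ ∪ TT) # (ℝP² × S²)`. By Kreck and `Ω₄(Pin⁻) = 0` there is an `r`
  such that `(ℝP² × S²) # K3 # r (S² × S²)` and `(ℝP² × S²) # (11 + r) (S² × S²)` are diffeomorphic.
  Such an `r` is fixed.
* `Ω` is the Pin⁻ bordism theory: `Ω (G, χ)` is the bordism group of closed 4-manifolds `X` with a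
  map `f` to `BG` and a `χ`-twisted spin structure (for nonorientable `X`: a Pin⁻ structure,
  `w₁ X = χ ∘ f`). It is a functor with exact Mayer-Vietoris sequences for amalgamated products.
  `Values`: `κ = [K3]` generates `Ω₄(Spin) = ℤ` (Rokhlin); `Ω₄(Spin)(S¹) = Ω₄(Spin) ⊕ Ω₃(Spin)` and
  `Ω₃(Spin) = 0`; `κ` is not zero over the circle with the nontrivial character (otherwise cutting
  along a fibre gives a spin manifold of signature 8); `Ω₄(Pin⁻) = 0`.
* `Fills D F κ`, `Fills D F' 0`: `C ++ (Mb × S²)` is the boundary of the handlebody `W` which
  consists of the thickening of `Y ∪ TT` and `Mb × D³`, with handles of index at most two. So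
  `π₁` and `H¹(·; ℤ/2)` of the boundary and of `W` are the same and `H²(W; ℤ/2)` injects: every flat
  labelling and every Pin⁻ structure of the boundary extends to `W`, and all classes of the boundary
  are zero; after the connected sum with `Z` they are equal to `[Z]`. `W` has a Pin⁻ structure:
  the two Pin⁻ structures of `Mb` induce on its boundary the bounding spin structure (they extend to
  `ℝP²`), and so does the spin structure of `ℝ⁵` on the planar ring with the product framing.
  `π₁ F = ℤ` is generated by the core circle of `Mb`, the ring is twice the generator, and `w₁ F`
  is the parity.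

References: M. Freedman, The topology of four-dimensional manifolds, J. Diff. Geom. 17 (1982);
F. Quinn, Ends of maps III, J. Diff. Geom. 17 (1982) (topological connected sums);
M. Kreck, Some closed 4-manifolds with exotic differentiable structure, LNM 1051 (1984);
M. Kreck, Surgery and duality, Ann. of Math. 149 (1999), Theorem C;
R. Kirby, L. Taylor, Pin structures on low-dimensional manifolds (1990);
V. Rokhlin, New results in the theory of four-dimensional manifolds (1952).
-/

namespace Pool.Agent.Results.MP_d40431_gt.ConnectedClosed

open Pool.Agent.DT70 Pool.Agent.MK Pool.Agent.CC39 Pool.Agent.PB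

/-- There are a many-one complete recursively enumerable predicate `p`, spines `Y n` and `Y₀`, a
computable sequence of lists `C n` of the facets of the exteriors of the core for `Y n`, a list
`C₀` for `Y₀`, and a list `D` of the facets of the collar, such that the ring of `Y₀` is
contractible, the ring of `Y n` has infinite order if `p n` does not hold, and for all fillers
`F`, `F'` which are homeomorphic relative to the boundary: `C n ++ F` and `C n ++ F'` are connected
closed combinatorial 4-manifolds, homeomorphic to each other; if `p n`, they are PL homeomorphic
to `C₀ ++ F` resp. `C₀ ++ F'`. If moreover `C₀ ++ F` and `C₀ ++ F'` are PL homeomorphic, and the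
classes of the fillers `F`, `F'` in the Pin⁻ bordism theory `Ω` are `kappa` and `0`, then
`C n ++ F` and `C n ++ F'` are PL homeomorphic if and only if `p n`, and no algorithm solves the
promise problem for connected closed 4-manifolds. -/
theorem result :
    ∃ (p : ℕ → Prop) (Y : ℕ → Set P) (Y₀ : Set P) (C : ℕ → Code) (C₀ D : Code),
      (REPred p ∧ ∀ q : ℕ → Prop, REPred q → q ≤₀ p) ∧ Computable C ∧ Lists (Tor \ Core) D ∧
      (∀ n, Spine (Y n) ∧ Lists (K (Y n ∪ TT) \ Core) (C n) ∧ (¬ p n → Essential (Y n))) ∧
      (Spine Y₀ ∧ Lists (K (Y₀ ∪ TT) \ Core) C₀ ∧ Trivial Y₀) ∧
      ∀ F F' : Code, Filler D F → Filler D F' → SameB D F F' →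
        (∀ n, (Mfd false (C n ++ F) ∧ IsConnected (real (C n ++ F))) ∧
          (Mfd false (C n ++ F') ∧ IsConnected (real (C n ++ F'))) ∧
          Nonempty (real (C n ++ F) ≃ₜ real (C n ++ F')) ∧
          (p n → PLHomeo (C n ++ F) (C₀ ++ F) ∧ PLHomeo (C n ++ F') (C₀ ++ F'))) ∧
        (PLHomeo (C₀ ++ F) (C₀ ++ F') →
          ∀ Ω : PinMinus, Ω.Fills D F Ω.kappa → Ω.Fills D F' 0 →
            (∀ n, PLHomeo (C n ++ F) (C n ++ F') ↔ p n) ∧ ¬ ∃ f, SolvesC f) :=
  main

end Pool.Agent.Results.MP_d40431_gt.ConnectedClosed
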