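import Pool.Agent.MK.Final2
import Pool.Agent.MKD.Final

/-!
# Problem MP_d40431_gt: the homeomorphism promise is worthless for disconnected manifolds

Let `A`, `K`, `R`, `R'` be connected combinatorial 4-manifolds with marked facets such that
`R` and `R'` are homeomorphic respecting the marked facets. Put

  `X = (A # R) ⊔ (K # R')`,  `Y = (A # R') ⊔ (K # R)`.

Then `X` and `Y` are always homeomorphic. If `K` is PL homeomorphic to `A` (respecting the marked
facets), then `X` and `Y` are PL homeomorphic (exchange the components); `X` and `Y` are PL
homeomorphic only if their components are, in one of the two possible orders. If `A` is simply
connected and `K # R = A # R`, then the group `G = π₁(R)` is finitely generated and isomorphic to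
the free product `π₁(K) * G`, so `K` is simply connected (a weak form of the theorem of Grushko,
proved in `Pool.Agent.MKG` by comparing von Neumann dimensions of spaces of derivations). So if
`A # R` and `A # R'` are not PL homeomorphic and `K` is not simply connected, then `X` and `Y` are
not PL homeomorphic.

The theorem of Markov is proved here in the following form: there are one simply connected closed
combinatorial 4-manifold `A`, a hypersurface in `ℝ⁵`, and a computable sequence of closed
combinatorial 4-manifolds `M n` such that `M n` is PL homeomorphic to `A` if `p n` holds, and not
simply connected otherwise, where `p` is a many-one complete recursively enumerable predicate.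
Hence an algorithm for the promise problem cannot exist as soon as there are homeomorphic `R` and
`R'` such that `A # R` and `A # R'` are not PL homeomorphic. In other words: if the promise problem
has an algorithm, then all homeomorphic `R` and `R'` become PL homeomorphic after connected sum
with the one fixed simply connected manifold `A`.

## Proof of the theorem of Markov

* Group theory (`Pool.Agent.MKE`): words `u n`, `u0` in the letters of one finite presentation
  such that `u n = u0` if `p n`; if not `p n`, some letter survives in the quotient by `u n`; all
  letters die in the quotient by `u0`.
* Geometry (`Pool.Agent.MKD`): a word `w` gives a 2-dimensional cubical complex `X(w)` in the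
  lattice `ℤ⁵`, with one 2-cell for every relator and for `w`. If `w` and `w'` are equal in the
  group, then `X(w)` and `X(w')` are connected by elementary cubical expansions and collapses in
  dimension at most 3, away from the marked cube.
* PL topology (`Pool.Agent.MK`): the union of the cubes `[q, q + 1]⁵`, `q` a doubled centre of a
  cell of `X`, is a 5-manifold with boundary `K X`, triangulated as part of the Kuhn triangulation
  of `ℝ⁵`; an elementary expansion changes `K X` by a sequence of bistellar flips; flips give PL
  homeomorphisms.
* Fundamental groups: `K X` is simply connected if and only if every flat edge labelling of `X` by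
  elements of a group is a coboundary.
-/

namespace Pool.Agent.Results.MP_d40431_gt.DisconnectedPairs

open Pool.Agent.DT70 Pool.Agent.MK

/-- There are a many-one complete recursively enumerable predicate `p`, a simply connected closed
combinatorial 4-manifold `A` which is the boundary of a finite union of unit cubes of the lattice
`ℤ⁵`, and a computable sequence of closed connected combinatorial 4-manifolds `M n`, such that
`M n` is PL homeomorphic to `A` respecting the marked facets if `p n`, and `M n` is not simply
connected if not `p n`. For all connected combinatorial 4-manifolds `R`, `R'` (closed if
`b = false`) which are homeomorphic respecting the marked facets and for which `A # R` and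
`A # R'` are not PL homeomorphic, the disjoint unions of `A # R` and `M n # R'`, and of `A # R'`
and `M n # R`, are homeomorphic for all `n` and PL homeomorphic if and only if `p n`; in particular
no algorithm solves the promise problem, for closed manifolds if `b = false`, and for manifolds
possibly with boundary if `b = true`. -/
theorem result :
    ∃ (p : ℕ → Prop) (X : Set P) (A : Code) (M : ℕ → Code),
      (REPred p ∧ ∀ q : ℕ → Prop, REPred q → q ≤₀ p) ∧
      (X.Finite ∧ CubeBoundary X A ∧ Marked false A ∧ SimplyConnectedSpace (real A)) ∧
      (Computable M ∧ ∀ n, Marked false (M n) ∧ (p n → Rel PLOn (M n) A) ∧
        (¬ p n → ¬ SimplyConnectedSpace (real (M n)))) ∧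
      ∀ (b : Bool) (R R' : Code), Marked b R → Marked b R' → Rel Cont R R' →
        ¬ PLHomeo (cs A R) (cs A R') →
        (∀ n, Nonempty (real (du (cs A R) (cs (M n) R')) ≃ₜ real (du (cs A R') (cs (M n) R))) ∧
          (PLHomeo (du (cs A R) (cs (M n) R')) (du (cs A R') (cs (M n) R)) ↔ p n)) ∧
        ¬ ∃ f, Solves b f :=
  final2 Pool.Agent.MKD.exists_fam

end Pool.Agent.Results.MP_d40431_gt.DisconnectedPairs
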