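import Pool.Agent.RG.Main
import Pool.Agent.FG.ExampleMV

/-!
# MP_d40431_gt: diffeomorphism of homeomorphic 4-manifolds given by surgery codes

A code `(L, k, s)` describes the closed nonorientable smooth 4-manifold `M (L, k, s)` obtained from
`4 RP⁴ # g (S¹ × S³)` by surgery along the loops `L` (words in the generators `a 0, ..., a 3` and
`x 0, ..., x (g - 1)` of the fundamental group, containing an even number of letters `a i`; the
framings are the ones over which the standard Pin^+ structure extends) and by connected sum with
`k` copies of `K3` and `s` copies of `S² × S²`.

THE THEOREM. There are `g`, a finitely presented RESIDUALLY FINITE group `G` (so the word problem of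
`G` is solvable), a computable sequence `L n` of lists of loops with fundamental group `G` and a
many-one complete r.e. predicate `p` such that for all computable maps `T` from codes to a type `α`
(for instance triangulations) and all relations `D`, `H` on `α` such that

* `D (T c) (T c')` if `c`, `c'` are related by moves (`loop`: a loop may be replaced by a loop which
  is homotopic to it in the manifold with the other loops; `trade`: if `a i * v i * a 0 * (v i)⁻¹`
  for `i = 1, 2, 3` are the last three loops, where the `v i` are words in the `x j`,
  `K3 # r (S² × S²)` may be replaced by `(r + 11) (S² × S²)`),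
* the classes of `c`, `c'` in a Pin^+ theory are equivalent if `D (T c) (T c')`,
* `H (T c) (T c')` if `c'` is obtained from `c` by replacing one `K3` by `11 (S² × S²)`,

the pairs `T (L n, 1, r)`, `T (L n, 0, r + 11)` are in `H`, and they are in `D` if and only if
`p n`. So no algorithm decides `D` on pairs in `H`, even on pairs with fundamental group `G`.

By quoted theorems (not in Lean) `D` = diffeomorphic and `H` = homeomorphic have these properties
for one `r`, where `T c` is a triangulation of `M c` and `Ω` is Pin^+ bordism of closed 4-manifolds
over groups with orientation character: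
homotopic loops in a 4-manifold are isotopic; sliding the `i`-th copy of `RP⁴` over `v i`
(`i = 1, 2, 3`) is a diffeomorphism of `4 RP⁴ # g (S¹ × S³)` which maps `a i` to
`v i * a i * (v i)⁻¹`, fixes the other generators and preserves the standard Pin^+ structure, so in
`trade` one may assume that the `v i` are empty;
`A # K3 # r (S² × S²) = A # (r + 11) (S² × S²)` for some `r`, where `A` is `4 RP⁴` surgered along
the loops `a i * a 0` (Kreck's stable classification and `Ω₄^{Pin+} = ℤ/16`, the classes being
`4 + 8 = -4` and `4`; the diffeomorphism is the identity on `π₁ A = {1, -1}` and changes the Pin^+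
structure by `w₁`, which does not change the framings along the other loops as they preserve the
orientation); the class of `M (L, k, s)` is the sum of the classes of the copies of `RP⁴` and of
`K3`, by the trace of the surgeries; and `M # K3` is homeomorphic to `M # 11 (S² × S²)` for `M`
closed and nonorientable (Freedman).
-/

namespace Pool.Agent.Results.MP_d40431_gt.SurgeryCodes

open Pool.Agent.FG Pool.Agent.RG

theorem result :
    Nonempty PinTheory ∧
    (∀ (Ω : PinTheory) (g r : ℕ), Realizes (g := g) Ω r id (PinEquivalent Ω) Exchange ∧
      Realizes (g := g) Ω r id (Relation.EqvGen (Move r)) Exchange) ∧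
    ∃ (g N : ℕ) (rel : Set (FreeGroup (Fin N))) (χ : PresentedGroup rel →* ℤˣ)
      (L : ℕ → List (Word g)) (p : ℕ → Prop),
      rel.Finite ∧ Group.ResiduallyFinite (PresentedGroup rel) ∧ Computable L ∧
      (∀ n, HasType rel χ (L n)) ∧ CompleteRE p ∧
      ∀ (Ω : PinTheory) (r : ℕ) (α : Type) [Primcodable α] (T : Code g → α) (D H : α → α → Prop),
        Realizes Ω r T D H →
          (∀ n, H (T (L n, 1, r)) (T (L n, 0, r + 11)) ∧
            (D (T (L n, 1, r)) (T (L n, 0, r + 11)) ↔ p n)) ∧
          ¬ ∃ f : α × α →. Bool, Decides rel χ T D H f :=
  ⟨nonempty_pinTheory, realizes, main⟩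

end Pool.Agent.Results.MP_d40431_gt.SurgeryCodes
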