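import Pool.Agent.D4.Key
import Pool.Agent.D4.Example
import Pool.Agent.NB.Main

/-!
# MP_d40431_gt: the K3 class of orientation data on finitely presented groups is undecidable

There are a finitely presented group `H = ⟨Fin N | rels⟩` and a computable sequence of words
`w n`, each trivial or of infinite order in `H`, such that it is undecidable which are trivial,
and such that for every `Theory` (for instance Pin^- bordism of 4-manifolds over groups with
orientation character, `kappa` being the `K3` surface) the class `kappa` vanishes on
`G_n = ⟨H, t | t ^ 2 = w n⟩` with the character `t ↦ -1`, `H ↦ 1`, if and only if `w n = 1`.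

PROOF. The first part is the Novikov-Boone theorem, proved in `Pool.Agent.NB.Main` with an
explicit permutation model. If `w n = 1` then `t` gives a map from the group of order two, where
`kappa` vanishes. If `w n` has infinite order, `G_n` is the amalgamated product of `H` and the
infinite cyclic group generated by `t` along the infinite cyclic group generated by
`w n = t ^ 2`; if `kappa` were zero, Mayer-Vietoris would give a multiple `m * kappa` on the
amalgamated subgroup with `m * kappa = kappa` on `H` (so `m = 1`) and `m * kappa = 0` on the group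
generated by `t`, where `kappa` is not zero.
-/

namespace Pool.Agent.Results.MP_d40431_gt.UndecidableBordism

open Pool.Agent.D4

theorem result :
    Nonempty Theory ∧
    ∃ (N : ℕ) (rels : Set (FreeGroup (Fin N))) (w : ℕ → List (Fin N × Bool)),
      rels.Finite ∧ Computable w ∧
      (∀ n, PresentedGroup.mk rels (FreeGroup.mk (w n)) = 1 ∨
        ¬ IsOfFinOrder (PresentedGroup.mk rels (FreeGroup.mk (w n)))) ∧
      ∀ Ω : Theory,
        (∀ n, Ω.k (rootChar rels (w n)) = 0 ↔
          PresentedGroup.mk rels (FreeGroup.mk (w n)) = 1) ∧
        (¬ ComputablePred fun n => Ω.k (rootChar rels (w n)) = 0) ∧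
        (REPred fun n => Ω.k (rootChar rels (w n)) = 0) ∧
        ∀ p : ℕ → Prop, REPred p → p ≤₀ fun n => Ω.k (rootChar rels (w n)) = 0 := by
  refine ⟨nonempty_theory, ?_⟩
  obtain ⟨N, rels, w, h1, h2, h3, h4, h5⟩ := Pool.Agent.NB.novikov_boone
  refine ⟨N, rels, w, h1, h2, h5, fun Ω => ?_⟩
  have h6 : ∀ n, Ω.k (rootChar rels (w n)) = 0 ↔
      PresentedGroup.mk rels (FreeGroup.mk (w n)) = 1 :=
    fun n => k_eq_zero_iff rels (w n) Ω (h5 n)
  have h7 : ∀ p : ℕ → Prop, REPred p → p ≤₀ fun n => Ω.k (rootChar rels (w n)) = 0 := by
    intro p hp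
    obtain ⟨r, hr, hr2⟩ := h4 p hp
    exact ⟨r, hr, fun a => (hr2 a).trans (h6 _).symm⟩
  exact ⟨h6, Pool.Agent.NB.not_computable_of_complete _ h7, h3.of_eq fun n => (h6 n).symm, h7⟩

end Pool.Agent.Results.MP_d40431_gt.UndecidableBordism
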